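import Pool.Agent.Lib.MP_7e9d2b_lc.Machine
import Pool.Agent.Lib.MP_7e9d2b_lc.PlanarAG
import Pool.Agent.Lib.MP_7e9d2b_lc.Core

/-!
Open Packing restricted to cubic planar bipartite graphs is NP-complete.
-/

namespace Pool.Agent.Results.MP_7e9d2b_lc.CubicPlanarBipartite

open Pool.Agent.Lib.MP_7e9d2b_lc

/-- **Open Packing is NP-hard on cubic planar bipartite graphs.**  The problem monotone
one-in-three satisfiability for formulas in which every variable occurs in exactly three clauses
and whose incidence graph is planar (NP-complete by Moore and Robson, 2001) is reduced, by a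
many-one reduction computable in polynomial time by a multi-stack Turing machine, to Open Packing
restricted to cubic planar bipartite graphs.  The encodings are injective. -/
theorem result :
    Function.Injective encF ∧ Function.Injective encI ∧
    ∃ f : List (ℕ × ℕ × ℕ) → Inst,
      Nonempty (Turing.TM2ComputableInPolyTime encF encI f) ∧
      ∀ F, CubicFormula F → Planar (incidence F) →
        Cubic (f F).graph ∧ Planar (f F).graph ∧ (f F).graph.Colorable 2 ∧ 0 < (f F).k ∧
          (OneInThree F ↔ (f F).Yes) := by
  refine ⟨encF_inj, encI_inj, red, ⟨red_polytime⟩, ?_⟩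
  intro F hF hp
  refine ⟨cubic_iso (iso F) (ag_cubic hF), planar_iso (iso F) (ag_planar hF hp),
    colorable_iso (iso F) (ag_bip F), ?_, ?_⟩
  · have h : 0 < F.length := List.length_pos_of_ne_nil hF.1
    change 0 < 22 * F.length + (F.length + 2) / 3
    omega
  · rw [ag_iff hF]
    exact exists_packing_iso (iso F) _

end Pool.Agent.Results.MP_7e9d2b_lc.CubicPlanarBipartite
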